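import Pool.Agent.helper69.DH.SpecR

/-! # rGEX (helper26): the label sets of the new critical cells -/

set_option autoImplicit false

open Filter Topology MeasureTheory
open scoped commutatorElement

namespace Pool.Agent.helper90.DH

open Pool.Agent.helper64.D2

/-- `rdg` depends only on the levels `≤ s` of `K`. -/
lemma rGEX_rdg (P : RQ) (K K' : ℕ → Finset ℤ) (e s : ℕ) (m : ℤ) (h : ∀ t, t ≤ s → K t = K' t) : rdg P K e s m = rdg P K' e s m := by
  unfold rdg
  congr 1
  ext i
  simp only [Finset.mem_filter]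
  constructor
  · rintro ⟨h1, t, ht, n, hn, h2⟩
    exact ⟨h1, t, ht, n, by rw [← h t ht]; exact hn, h2⟩
  · rintro ⟨h1, t, ht, n, hn, h2⟩
    exact ⟨h1, t, ht, n, by rw [h t ht]; exact hn, h2⟩

open Classical in
theorem rGEX (hBAS : rBAS_stmt) (hREE : rREE_stmt) (hPEL : rPEL_stmt) : rGEX_stmt := by
  intro P S hRHY D h k hS hROK hFP hDs
  obtain ⟨-, -, -, hdiv, hself, -, hrange, -, hSg, -⟩ := hBAS
  have hREE' := hREE P S hRHY
  obtain ⟨⟨hq, hell, hells0, hs0, hs0S1, hellS1, hd1, hd18⟩, -, -, hMX⟩ := hRHY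
  obtain ⟨hMXS, -⟩ := hMX S hS le_rfl
  have hKS : Function.update D.K S k S = k := Function.update_self _ _ _
  have hKt : ∀ t, t < S → Function.update D.K S k t = D.K t := fun t ht => Function.update_of_ne ht.ne _ _
  have hk : ∀ n ∈ k, n ∈ rSg S ∧ ∀ t < S, n / 2 ^ (S - t) ∉ D.K t := by
    intro n hn
    have h1 := (hFP.2 n).1 (by rw [hKS]; exact hn)
    refine ⟨h1.1, fun t ht => ?_⟩
    rw [← hKt t ht]
    exact h1.2.1 t ht
  have hS5 : 5 ≤ S - 1 := by omega
  have hrdg : ∀ m : ℤ, rdg P (Function.update D.K S k) 0 (S - 1) m = rdg P D.K 0 (S - 1) m := by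
    intro m
    exact rGEX_rdg P _ _ 0 (S - 1) m (fun t ht => hKt t (by omega))
  -- the bad labels
  have hbad : ∀ n ∈ k, 100 * ((Finset.range P.q).filter (fun i => P.q ≤ 3000 * rdg P (Function.update D.K S k) 0 (S - 1) (rbb P (S - 1) i (n / 2)))).card < P.q := by
    intro n hn
    obtain ⟨hnSg, hnK⟩ := hk n hn
    rcases hS.eq_or_lt with hSe | hSlt
    · have hzero : ∀ m : ℤ, rdg P (Function.update D.K S k) 0 (S - 1) m = 0 := by
        intro m
        rw [hrdg]
        unfold rdg
        rw [Finset.card_eq_zero, Finset.filter_eq_empty_iff]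
        rintro i - ⟨t, ht, n', hn', -⟩
        have h1 := (hROK t (by omega)).1 (by omega)
        rw [h1.2] at hn'
        exact absurd hn' (Finset.notMem_empty _)
      have hE : (Finset.range P.q).filter (fun i => P.q ≤ 3000 * rdg P (Function.update D.K S k) 0 (S - 1) (rbb P (S - 1) i (n / 2))) = ∅ := by
        rw [Finset.filter_eq_empty_iff]
        intro i _
        rw [hzero]
        omega
      rw [hE, Finset.card_empty]
      omega
    · have h1 := ((hROK (S - 1) (by omega)).2 (by omega)).1.2 (n / 2)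
      have hSS : S - (S - 1) = 1 := by omega
      have h2 : n / 2 ∉ D.K (S - 1) := by
        have := hnK (S - 1) (by omega)
        rw [hSS, pow_one] at this
        exact this
      have h3 : n / 2 ∈ rSg (S - 1) := by
        have := ((hrange S (S - 1) n (by omega)).2 hS5).2 hnSg
        rw [hSS, pow_one] at this
        exact this
      have h4 : ∀ t < S - 1, n / 2 / 2 ^ (S - 1 - t) ∉ D.K t := by
        intro t ht
        have h5 := hdiv S (S - 1) t n (by omega) (by omega)
        rw [hSS, pow_one] at h5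
        rw [h5]
        exact hnK t (by omega)
      have h5 : ¬ rCR P D.H D.K 0 (S - 1) (n / 2) := fun h6 => h2 (h1.2 ⟨h3, h4, h6⟩)
      unfold rCR at h5
      rw [not_le] at h5
      refine lt_of_le_of_lt ?_ h5
      refine Nat.mul_le_mul_left _ (Finset.card_le_card ?_)
      intro i hi
      rw [Finset.mem_filter] at hi ⊢
      refine ⟨hi.1, Or.inr ?_⟩
      have := hi.2
      rwa [hrdg] at this
  -- mixing
  have hmix : ∀ A' ⊆ k, ∀ Q : Finset ℤ, (((A' ×ˢ Finset.range P.q).filter (fun p => rbb P S p.2 p.1 ∈ Q)).card : ℝ) ^ 2 ≤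
      4 * (P.q : ℝ) ^ 2 * A'.card * Q.card / 2 ^ 104 := by
    intro A' hA' Q
    have h1 := hREE' S A' Q (by omega) le_rfl
    have h2 : (((A' ×ˢ Finset.range P.q).filter (fun p => rbb P S p.2 p.1 ∈ Q)).card : ℝ) ≤ 2 * (ree P S A' Q : ℝ) := by exact_mod_cast h1
    have h3 := hMXS A' Q (by
      intro n hn
      obtain ⟨-, h4, h5⟩ := hSg S n (by omega) (hk n (hA' hn)).1
      rw [abs_le]
      constructor <;> linarith) (by
      intro κ
      have h4 : rcw P.ell S κ A' ≤ rcw P.ell S κ (rRZ (Function.update D.K S k) S) := by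
        unfold rcw
        refine Finset.card_le_card ?_
        intro n hn
        rw [Finset.mem_filter] at hn ⊢
        refine ⟨?_, hn.2⟩
        unfold rRZ
        rw [Finset.mem_filter]
        refine ⟨(hSg S n (by omega) (hk n (hA' hn.1)).1).1, S, le_rfl, ?_⟩
        rw [(hself S n).2, hKS]
        exact hA' hn.1
      have h5 : (rcw P.ell S κ A' : ℝ) ≤ rcw P.ell S κ (rRZ (Function.update D.K S k) S) := by exact_mod_cast h4
      have h6 := (hDs κ).2
      have h7 : P.d1 * 2 ^ (S - P.ell) ≤ 2 ^ 10 * P.d1 * 2 ^ (S - P.ell) := by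
        have h8 : 0 < P.d1 * 2 ^ (S - P.ell) := by positivity
        nlinarith
      linarith)
    calc (((A' ×ˢ Finset.range P.q).filter (fun p => rbb P S p.2 p.1 ∈ Q)).card : ℝ) ^ 2 ≤ (2 * (ree P S A' Q : ℝ)) ^ 2 := by gcongr
      _ = 4 * (ree P S A' Q : ℝ) ^ 2 := by ring
      _ ≤ 4 * ((P.q : ℝ) ^ 2 * A'.card * Q.card / 2 ^ 104) := by gcongr
      _ = 4 * (P.q : ℝ) ^ 2 * A'.card * Q.card / 2 ^ 104 := by ring
  obtain ⟨G, hG1, hG2⟩ := hPEL P.q k (fun i n => rbb P S i n)
    (fun n => (Finset.range P.q).filter (fun i => P.q ≤ 3000 * rdg P (Function.update D.K S k) 0 (S - 1) (rbb P (S - 1) i (n / 2)))) hq hbad hmix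
  refine ⟨G, ?_, ?_⟩
  · intro n hn
    rw [hKS] at hn
    rw [Function.update_self]
    obtain ⟨h1, h2, h3⟩ := hG1 n hn
    refine ⟨h1, h3, fun i hi => ?_⟩
    by_contra hcon
    rw [not_lt] at hcon
    have h4 : i ∈ (Finset.range P.q).filter (fun i => P.q ≤ 3000 * rdg P (Function.update D.K S k) 0 (S - 1) (rbb P (S - 1) i (n / 2))) := by
      rw [Finset.mem_filter]
      exact ⟨h1 hi, hcon⟩
    exact (Finset.disjoint_left.1 h2 hi) h4
  · intro m
    have := hG2 m
    rw [hKS, Function.update_self]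
    exact this

end Pool.Agent.helper90.DH
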